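import Pool.Agent.TH317.CC.Riem

/-!
# Total variation for the truncated distance; an oriented `C^1` surface from an oriented atlas
-/

set_option autoImplicit false

universe u

namespace Pool.Agent.TH317.CC

open Set Manifold Bundle
open scoped ContDiff Topology

section Var

variable {M : Type u} [EMetricSpace M]

namespace M4

theorem var_small (f : ℝ → M) (S : Set ℝ) (h : ∀ x ∈ S, ∀ y ∈ S, edist (f x) (f y) ≤ 1) :
    @eVariationOn ℝ _ M (truncMetric M).toPseudoMetricSpace.toPseudoEMetricSpace f S =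
      eVariationOn f S := by
  unfold eVariationOn
  refine iSup_congr fun p => Finset.sum_congr rfl fun i _ => ?_
  change min (edist (f ((p.2 : ℕ → ℝ) (i + 1))) (f ((p.2 : ℕ → ℝ) i))) 1 = _
  exact min_eq_left (h _ (p.2.2.2 _) _ (p.2.2.2 _))

theorem var_add (f : ℝ → M) {a b c : ℝ} (hab : a ≤ b) (hbc : b ≤ c) :
    eVariationOn f (Icc a c) = eVariationOn f (Icc a b) + eVariationOn f (Icc b c) := by
  have := eVariationOn.Icc_add_Icc f (s := Set.univ) hab hbc (Set.mem_univ b)
  simpa using this.symm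

theorem var_add' (f : ℝ → M) {a b c : ℝ} (hab : a ≤ b) (hbc : b ≤ c) :
    @eVariationOn ℝ _ M (truncMetric M).toPseudoMetricSpace.toPseudoEMetricSpace f (Icc a c) =
      @eVariationOn ℝ _ M (truncMetric M).toPseudoMetricSpace.toPseudoEMetricSpace f (Icc a b) +
      @eVariationOn ℝ _ M (truncMetric M).toPseudoMetricSpace.toPseudoEMetricSpace f (Icc b c) := by
  have := @eVariationOn.Icc_add_Icc ℝ _ M (truncMetric M).toPseudoMetricSpace.toPseudoEMetricSpace
    f Set.univ a b c hab hbc (Set.mem_univ b)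
  simpa using this.symm

end M4

open M4 in
theorem eVar_trunc (f : ℝ → M) (a b : ℝ) (hf : ContinuousOn f (Icc a b)) :
    @eVariationOn ℝ _ M (truncMetric M).toPseudoMetricSpace.toPseudoEMetricSpace f (Icc a b) =
      eVariationOn f (Icc a b) := by
  rcases lt_or_ge b a with hba | hab
  · apply var_small
    rw [Icc_eq_empty (not_le.2 hba)]
    intro x hx
    exact absurd hx (Set.notMem_empty x)
  have huc : UniformContinuousOn f (Icc a b) :=
    isCompact_Icc.uniformContinuousOn_of_continuous hf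
  obtain ⟨δ, hδ, hd⟩ := EMetric.uniformContinuousOn_iff.1 huc 1 one_pos
  obtain ⟨δ', hδ', hd'⟩ : ∃ δ' : ℝ, 0 < δ' ∧ ∀ x ∈ Icc a b, ∀ y ∈ Icc a b, |x - y| < δ' →
      edist (f x) (f y) ≤ 1 := by
    rcases eq_or_ne δ ⊤ with hT | hT
    · refine ⟨1, one_pos, fun x hx y hy _ => (hd hx hy ?_).le⟩
      rw [hT]
      exact edist_lt_top x y
    · refine ⟨δ.toReal, ENNReal.toReal_pos hδ.ne' hT, fun x hx y hy hxy => (hd hx hy ?_).le⟩
      rw [edist_dist, Real.dist_eq, ENNReal.ofReal_lt_iff_lt_toReal (abs_nonneg _) hT]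
      exact hxy
  obtain ⟨N, hN⟩ := exists_nat_gt ((b - a) / δ')
  have hN0 : 0 < (N : ℝ) := lt_of_le_of_lt (div_nonneg (by linarith) hδ'.le) hN
  set h : ℝ := (b - a) / N with hh
  have hh0 : 0 ≤ h := div_nonneg (by linarith) hN0.le
  have hhd : h < δ' := by
    rw [hh, div_lt_iff₀ hN0]
    rw [div_lt_iff₀ hδ'] at hN
    linarith
  have hNh : (N : ℝ) * h = b - a := by
    rw [hh]; field_simp
  have key : ∀ n : ℕ, n ≤ N →
      @eVariationOn ℝ _ M (truncMetric M).toPseudoMetricSpace.toPseudoEMetricSpace f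
        (Icc a (a + n * h)) = eVariationOn f (Icc a (a + n * h)) := by
    intro n
    induction n with
    | zero =>
      intro _
      apply var_small
      intro x hx y hy
      simp only [Nat.cast_zero, zero_mul, add_zero, Icc_self, mem_singleton_iff] at hx hy
      rw [hx, hy]
      simp
    | succ n ih =>
      intro hn
      have h1 : a ≤ a + n * h := by
        have : 0 ≤ (n : ℝ) * h := by positivity
        linarith
      have h2 : a + n * h ≤ a + ((n + 1 : ℕ) : ℝ) * h := by
        push_cast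
        linarith
      have h3 : a + ((n + 1 : ℕ) : ℝ) * h ≤ b := by
        have : ((n + 1 : ℕ) : ℝ) ≤ N := by exact_mod_cast hn
        have := mul_le_mul_of_nonneg_right this hh0
        linarith
      rw [var_add f h1 h2, var_add' f h1 h2, ih (by omega)]
      congr 1
      apply var_small
      intro x hx y hy
      refine hd' x ⟨h1.trans hx.1, hx.2.trans h3⟩ y ⟨h1.trans hy.1, hy.2.trans h3⟩ ?_
      have e : ((n + 1 : ℕ) : ℝ) * h = n * h + h := by push_cast; ring
      rw [e] at hx hy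
      have hx1 := hx.1
      have hx2 := hx.2
      have hy1 := hy.1
      have hy2 := hy.2
      rw [abs_lt]
      constructor <;> linarith
  have := key N le_rfl
  rw [hNh] at this
  simpa using this

end Var

theorem orSurf_of_charts {E : Type} [NormedAddCommGroup E] [NormedSpace ℝ E]
    (hE : Module.finrank ℝ E = 2) {M : Type u} [TopologicalSpace M]
    (A : Set (OpenPartialHomeomorph M E)) (hA : ∀ x, ∃ e ∈ A, x ∈ e.source)
    (hs : ∀ e ∈ A, ∀ e' ∈ A, ContDiffOn ℝ 1 (e.symm.trans e') (e.symm.trans e').source)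
    (ho : ∀ e ∈ A, ∀ e' ∈ A, ∀ p ∈ (e.symm.trans e').source,
      0 < (fderiv ℝ (e.symm.trans e') p).det) :
    Nonempty (OrSurf M) := by
  have : FiniteDimensional ℝ E := Module.finite_of_finrank_pos (by rw [hE]; norm_num)
  have hfr : Module.finrank ℝ E = Module.finrank ℝ (ℝ × ℝ) := by
    rw [hE]; simp
  let ℓ : E ≃L[ℝ] (ℝ × ℝ) := ContinuousLinearEquiv.ofFinrankEq hfr
  have hsrc : ∀ (e e' : OpenPartialHomeomorph M E) (p : ℝ × ℝ),
      p ∈ ((e.transHomeomorph ℓ.toHomeomorph).symm.trans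
        (e'.transHomeomorph ℓ.toHomeomorph)).source ↔ ℓ.symm p ∈ (e.symm.trans e').source := by
    intro e e' p
    simp only [OpenPartialHomeomorph.trans_source, OpenPartialHomeomorph.symm_source, mem_inter_iff,
      mem_preimage]
    rfl
  have hfun : ∀ (e e' : OpenPartialHomeomorph M E),
      (fun p => (e'.transHomeomorph ℓ.toHomeomorph)
        ((e.transHomeomorph ℓ.toHomeomorph).symm p)) = ℓ ∘ (e.symm.trans e') ∘ ℓ.symm := by
    intro e e'
    funext p
    rfl
  refine ⟨⟨(fun e => e.transHomeomorph ℓ.toHomeomorph) '' A, ?_, ?_, ?_⟩⟩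
  · intro x
    obtain ⟨e, he, hx⟩ := hA x
    exact ⟨_, ⟨e, he, rfl⟩, hx⟩
  · rintro _ ⟨e, he, rfl⟩ _ ⟨e', he', rfl⟩
    have h1 : ContDiffOn ℝ 1 ((e.symm.trans e') ∘ ℓ.symm)
        ((e.transHomeomorph ℓ.toHomeomorph).symm.trans
          (e'.transHomeomorph ℓ.toHomeomorph)).source := by
      refine (hs e he e' he').comp ℓ.symm.contDiff.contDiffOn ?_
      intro p hp
      exact (hsrc e e' p).1 hp
    have h2 := ℓ.contDiff.comp_contDiffOn h1
    exact h2
  · rintro _ ⟨e, he, rfl⟩ _ ⟨e', he', rfl⟩ p hp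
    have hq := (hsrc e e' p).1 hp
    have hpos := ho e he e' he' _ hq
    change 0 < (fderiv ℝ (fun p => (e'.transHomeomorph ℓ.toHomeomorph)
        ((e.transHomeomorph ℓ.toHomeomorph).symm p)) p).det
    rw [hfun e e', ℓ.comp_fderiv, ℓ.symm.comp_right_fderiv]
    have hdet : ∀ D : E →L[ℝ] E,
        ((ℓ : E →L[ℝ] (ℝ × ℝ)).comp (D.comp (ℓ.symm : (ℝ × ℝ) →L[ℝ] E))).det = D.det := by
      intro D
      have := LinearMap.det_conj (D : E →ₗ[ℝ] E) ℓ.toLinearEquiv
      exact this
    rw [hdet]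
    exact hpos

end Pool.Agent.TH317.CC
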